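import Pool.Agent.H55.GW.Targets3

/-!
# TRA: all rail states pass through a good window
-/

set_option autoImplicit false

namespace Pool.Agent.H20.GW

open Pool.Agent.H55.GW Pool.Agent.H55.GW.Frame

theorem nxt_D {W : Type} {D : W → W → Prop} {l : List W} {x y : W} (hc : l.IsChain D)
    (h : Nxt l x y) : D x y ∧ x ∈ l ∧ y ∈ l := by
  obtain ⟨l₁, l₂, rfl⟩ := h
  refine ⟨?_, by simp, by simp⟩
  have := List.IsChain.right_of_append hc
  exact (List.isChain_cons_cons.1 this).1

theorem tra (hFLP : T_FLP) (hLOWB : T_LOWB) (hKPR : T_KPR) : T_TRA := by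
  classical
  intro c hc i hgood C μ hmu K hK Y
  obtain ⟨hC, hPM, hBs, hmum, -⟩ := hmu
  obtain ⟨h1i, hiT, -, -, -⟩ := id hgood
  have hiT' : i < c.T := by omega
  obtain ⟨-, -, -, -, -, hL6, -, hL8⟩ := hLOWB c hc i hiT'
  have hOi : c.O i ⊆ c.O (i + 1) := hc.mono i (i + 1) (by omega) (by omega)
  -- position of the boundary vertices
  have hst : ∀ a, c.ty a = true → (Sum.inr (c.s i a) : Vx) ∈ c.O i := fun a ha =>
    (hc.sO i (by omega) a ha).2.1
  have hen : ∀ a, c.ty a = true → (Sum.inr (c.s (i + 1) a) : Vx) ∈ c.O (i + 1) ∧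
      (Sum.inr (c.s (i + 1) a) : Vx) ∉ c.O i := fun a ha =>
    ⟨(hc.sO (i + 1) (by omega) a ha).2.1, (hc.sO (i + 1) (by omega) a ha).2.2 i (by omega)⟩
  have hst' : ∀ a, c.ty a = false → (Sum.inr (c.s i a) : Vx) ∈ c.O (i + 1) ∧
      (Sum.inr (c.s i a) : Vx) ∉ c.O i := fun a ha =>
    ⟨(hc.sI i (by omega) a ha).2.2 (i + 1) (by omega) (by omega),
      (hc.sI i (by omega) a ha).2.1⟩
  have hen' : ∀ a, c.ty a = false → (Sum.inr (c.s (i + 1) a) : Vx) ∉ c.O (i + 1) := fun a ha =>
    (hc.sI (i + 1) (by omega) a ha).2.1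
  have hsV : ∀ a, c.s i a ∈ c.F.V := fun a => (hc.sV i (by omega) a).1
  have hsV' : ∀ a, c.s (i + 1) a ∈ c.F.V := fun a => (hc.sV (i + 1) (by omega) a).1
  have hTr : ∀ a, (Sum.inr (c.s i a) : Vx) ∈ c.Tr a := fun a => (hc.sV i (by omega) a).2.2
  have hTr' : ∀ a, (Sum.inr (c.s (i + 1) a) : Vx) ∈ c.Tr a := fun a =>
    (hc.sV (i + 1) (by omega) a).2.2
  have htr : ∀ a b x, x ∈ c.Tr a → x ∈ c.Tr b → a = b := by
    intro a b x ha hb
    by_contra hab
    exact Set.disjoint_left.1 (hc.dTr a b hab) ha hb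
  have hstne : ∀ a b, c.s i a = c.s i b → a = b := by
    intro a b h
    refine htr a b _ (hTr a) ?_
    rw [h]
    exact hTr b
  have henne : ∀ a b, c.s (i + 1) a = c.s (i + 1) b → a = b := by
    intro a b h
    refine htr a b _ (hTr' a) ?_
    rw [h]
    exact hTr' b
  have hsene : ∀ a b, c.s i a ≠ c.s (i + 1) b := by
    intro a b h
    have hab : a = b := by
      refine htr a b _ (hTr a) ?_
      rw [h]
      exact hTr' b
    subst hab
    cases hty : c.ty a
    · exact hen' a hty (h ▸ (hst' a hty).1)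
    · exact (hen a hty).2 (h ▸ hst a hty)
  -- paths
  have hpath : ∀ a, ∃ l, IsPath (c.F.D c.m) l (Sum.inr (c.s i a)) (Sum.inr (c.s (i + 1) a)) ∧
      ∀ v ∈ l, v ∈ {x | x ∈ c.Tr a ∧ ((x ∈ c.O (i + 1) ∧ x ∉ c.O i) ∨
        x = Sum.inr (c.s i a) ∨ x = Sum.inr (c.s (i + 1) a))} := fun a =>
    (hc.seg i hiT' a).exists_path
  choose l hl hlS using hpath
  have hJ : ∀ v, v ∈ c.Jz i ↔ v ∈ c.F.V ∧ Sum.inr v ∈ c.O (i + 1) ∧ Sum.inr v ∉ c.O i :=
    fun v => Iff.rfl
  have hDx : ∀ x, ¬ c.F.D c.m x x := fun x h => D_asymm hc.pm h h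
  -- vertices strictly inside the window are not in Xi
  have hxi : ∀ x, x ∈ c.O (i + 1) → x ∉ c.O i → ∀ ξ ∈ c.Ξ, x ≠ Sum.inr ξ := by
    rintro x hx hx' ξ hξ rfl
    rcases (hc.xiV ξ hξ).2 with h | h
    · exact hx' (hc.mono 0 i (by omega) (by omega) h)
    · exact h (hc.mono (i + 1) c.T (by omega) le_rfl hx)
  -- edges of the paths are in the window
  have hwin : ∀ a x y, Nxt (l a) x y → c.win i x y := by
    intro a x y hxy
    obtain ⟨hD, hx, hy⟩ := nxt_D (hl a).1 hxy
    have hx' := hlS a x hx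
    have hy' := hlS a y hy
    have hnxy : x ≠ y := by
      rintro rfl
      exact hDx _ hD
    by_cases hyin : y ∈ c.O (i + 1) ∧ y ∉ c.O i
    · by_cases hxin : x ∈ c.O (i + 1) ∧ x ∉ c.O i
      · exact hL6 x y hD hxin.1 hxin.2 hyin.1 hyin.2
      · have hxO : x ∈ c.O (i + 1) := hc.inc (i + 1) (by omega) x y hD hyin.1
        have hxs : c.ty a = true ∧ x = Sum.inr (c.s i a) := by
          rcases hx'.2 with h | h | h
          · exact absurd h hxin
          · cases hty : c.ty a
            · exact absurd (h ▸ hst' a hty) hxin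
            · exact ⟨rfl, h⟩
          · cases hty : c.ty a
            · exact absurd (h ▸ hxO) (hen' a hty)
            · exact absurd (h ▸ hen a hty) hxin
        refine ⟨Or.inl ⟨hD, hyin.2, Or.inr (Or.inr ⟨a, hxs⟩)⟩, ?_⟩
        rintro (⟨-, h, -⟩ | ⟨h, -, -⟩)
        · exact h hyin.1
        · exact D_asymm hc.pm hD h
    · -- y is the outer end of a path of type false, or the start of one of type true
      have hyc : (c.ty a = true ∧ y = Sum.inr (c.s i a)) ∨
          (c.ty a = false ∧ y = Sum.inr (c.s (i + 1) a)) := by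
        rcases hy'.2 with h | h | h
        · exact absurd h hyin
        · cases hty : c.ty a
          · exact absurd (h ▸ hst' a hty) hyin
          · exact Or.inl ⟨rfl, h⟩
        · cases hty : c.ty a
          · exact Or.inr ⟨rfl, h⟩
          · exact absurd (h ▸ hen a hty) hyin
      rcases hyc with ⟨hty, hy0⟩ | ⟨hty, hy0⟩
      · exfalso
        have hyO : y ∈ c.O i := hy0 ▸ hst a hty
        have hxO : x ∈ c.O i := hc.inc i (by omega) x y hD hyO
        rcases hx'.2 with h | h | h
        · exact h.2 hxO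
        · exact hnxy (h.trans hy0.symm)
        · exact (hen a hty).2 (h ▸ hxO)
      · have hyO : y ∉ c.O (i + 1) := hy0 ▸ hen' a hty
        have hxin : x ∈ c.O (i + 1) ∧ x ∉ c.O i := by
          rcases hx'.2 with h | h | h
          · exact h
          · exact h ▸ hst' a hty
          · exact absurd (h.trans hy0.symm) hnxy
        refine ⟨Or.inl ⟨hD, fun h => hyO (hOi h), Or.inl hxin.2⟩, ?_⟩
        rintro (⟨-, -, h | ⟨ξ, hξ, h⟩ | ⟨b, hb, h⟩⟩ | ⟨h, -, -⟩)
        · exact h hxin.1
        · exact hxi x hxin.1 hxin.2 ξ hξ h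
        · have hab : a = b := htr a b x hx'.1 (h ▸ hTr' b)
          subst hab
          rw [hty] at hb
          exact absurd hb (by simp)
        · exact D_asymm hc.pm hD h
  -- path vertices lie in the region
  have hreg : ∀ a, ∀ x ∈ l a, x ∈ c.Reg i := by
    intro a x hx
    have hx' := hlS a x hx
    have key : (x ∈ c.O (i + 2) ∧ x ∉ c.O (i - 1)) := by
      rcases hx'.2 with h | h | h
      · exact ⟨hc.mono (i + 1) (i + 2) (by omega) (by omega) h.1,
          fun h' => h.2 (hc.mono (i - 1) i (by omega) (by omega) h')⟩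
      · cases hty : c.ty a
        · rw [h]
          exact ⟨hc.mono (i + 1) (i + 2) (by omega) (by omega) (hst' a hty).1,
            fun h' => (hst' a hty).2 (hc.mono (i - 1) i (by omega) (by omega) h')⟩
        · rw [h]
          exact ⟨hc.mono i (i + 2) (by omega) (by omega) (hst a hty),
            (hc.sO i (by omega) a hty).2.2 (i - 1) (by omega)⟩
      · cases hty : c.ty a
        · rw [h]
          exact ⟨(hc.sI (i + 1) (by omega) a hty).2.2 (i + 2) (by omega) (by omega),
            fun h' => hen' a hty (hc.mono (i - 1) (i + 1) (by omega) (by omega) h')⟩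
        · rw [h]
          exact ⟨hc.mono (i + 1) (i + 2) (by omega) (by omega) (hen a hty).1,
            fun h' => (hen a hty).2 (hc.mono (i - 1) i (by omega) (by omega) h')⟩
    refine ⟨key, ?_⟩
    rintro ⟨ξ, hξ, rfl⟩
    rcases hx'.2 with h | h | h
    · exact hxi _ h.1 h.2 ξ hξ rfl
    · exact (hc.sV i (by omega) a).2.1 (by rw [← Sum.inr.inj h]; exact hξ)
    · exact (hc.sV (i + 1) (by omega) a).2.1 (by rw [← Sum.inr.inj h]; exact hξ)
  -- the matching is unchanged on the paths
  have hmum' : ∀ a, ∀ v, (Sum.inr v : Vx) ∈ l a → v ∈ c.Jz i → μ v = c.m v := by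
    intro a v hv hvJ
    refine hmum v hvJ ?_
    intro ξ hξ η hη h0 hT hKV
    obtain ⟨hk1, hk2, -⟩ := hKPR c hc i hgood ξ hξ η hη h0 hT
    have hwalk := ((hl a).rIn_left hv).rev
    have hend : (Sum.inr (c.s i a) : Vx) ∈ c.Kset i ξ η := by
      refine hwalk.induct (p := fun x => x ∈ c.Kset i ξ η) hKV.2 ?_
      intro u w _ hw huw hu
      exact hk2 u hu w (hreg a w hw) (G_symm (D_G huw))
    exact (hk1 _ hend).2 a (Or.inl rfl)
  -- flip
  let Yf : Set (Fin c.k) := {a | (c.ty a = true ∧ a ∈ Y) ∨ (c.ty a = false ∧ a ∉ Y)}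
  let ad : Fin c.k → ℕ := fun a => if c.ty a = true then c.s i a else c.s (i + 1) a
  let rm : Fin c.k → ℕ := fun a => if c.ty a = true then c.s (i + 1) a else c.s i a
  have hadt : ∀ a, c.ty a = true → ad a = c.s i a := fun a h => if_pos h
  have hadf : ∀ a, c.ty a = false → ad a = c.s (i + 1) a := fun a h => if_neg (by simp [h])
  have hrmt : ∀ a, c.ty a = true → rm a = c.s (i + 1) a := fun a h => if_pos h
  have hrmf : ∀ a, c.ty a = false → rm a = c.s i a := fun a h => if_neg (by simp [h])
  have hsymm : ∀ x y, c.win i x y → c.win i y x := by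
    rintro x y ⟨h, h'⟩
    exact ⟨h.symm, fun h'' => h' h''.symm⟩
  obtain ⟨μ', hμ', hμe⟩ := hFLP c.F c.m hc.pm (c.win i) hsymm (c.Jz i) μ hPM c.k Yf l
    (fun a => c.s i a) (fun a => c.s (i + 1) a) ad rm (fun a _ => hl a)
    (fun a _ x y h => hwin a x y h) (by
      intro a _ b _ hab x hx hx'
      exact hab (htr a b x (hlS a x hx).1 (hlS b x hx').1))
    (fun a _ v hv hvJ => hmum' a v hv hvJ) (by
      intro a _
      refine ⟨hsene a a, ?_, ?_, ?_⟩
      · cases hty : c.ty a
        · exact Or.inr ⟨(hc.sI i (by omega) a hty).1, (hc.sI (i + 1) (by omega) a hty).1,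
            hadf a hty, hrmf a hty⟩
        · exact Or.inl ⟨(hc.sO i (by omega) a hty).1, (hc.sO (i + 1) (by omega) a hty).1,
            hadt a hty, hrmt a hty⟩
      · cases hty : c.ty a
        · rw [hadf a hty]
          exact fun h => hen' a hty h.2.1
        · rw [hadt a hty]
          exact fun h => h.2.2 (hst a hty)
      · intro v hv hva
        have hv' := (hlS a _ hv).2
        have hin : (Sum.inr v : Vx) ∈ c.O (i + 1) ∧ (Sum.inr v : Vx) ∉ c.O i := by
          rcases hv' with h | h | h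
          · exact h
          · cases hty : c.ty a
            · rw [h]
              exact hst' a hty
            · exact absurd ((Sum.inr.inj h).trans (hadt a hty).symm) hva
          · cases hty : c.ty a
            · exact absurd ((Sum.inr.inj h).trans (hadf a hty).symm) hva
            · rw [h]
              exact hen a hty
        refine ⟨?_, hin⟩
        rcases hc.sub (i + 1) (by omega) hin.1 with ⟨w, hw, h⟩ | ⟨e, -, h⟩
        · rw [Sum.inr.inj h]
          exact hw
        · exact absurd h (by simp))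
  -- the covered set
  have hset : {v | (v ∈ c.Jz i ∧ ∀ a ∈ Yf, v ≠ rm a) ∨ ∃ a ∈ Yf, v = ad a} =
      c.cvS i K Y \ c.cvS (i + 1) K Y := by
    ext v
    rw [hL8 K K Y Y hK subset_rfl v]
    constructor
    · rintro (⟨hv, hr⟩ | ⟨a, ha, rfl⟩)
      · by_cases h1 : ∃ a, v = c.s i a
        · obtain ⟨a, rfl⟩ := h1
          have hty : c.ty a = false := by
            cases hty : c.ty a
            · rfl
            · exact absurd (hst a hty) hv.2.2
          refine Or.inr (Or.inr (Or.inl ⟨a, ?_, rfl⟩))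
          by_contra hY
          exact hr a (Or.inr ⟨hty, hY⟩) (hrmf a hty).symm
        · by_cases h2 : ∃ a, v = c.s (i + 1) a
          · obtain ⟨a, rfl⟩ := h2
            have hty : c.ty a = true := by
              cases hty : c.ty a
              · exact absurd hv.2.1 (hen' a hty)
              · rfl
            refine Or.inr (Or.inr (Or.inr ⟨a, ?_, rfl⟩))
            intro hY
            exact hr a (Or.inl ⟨hty, hY⟩) (hrmt a hty).symm
          · push Not at h1 h2
            exact Or.inl ⟨hv, h1, h2⟩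
      · rcases ha with ⟨hty, haY⟩ | ⟨hty, haY⟩
        · exact Or.inr (Or.inr (Or.inl ⟨a, haY, hadt a hty⟩))
        · exact Or.inr (Or.inr (Or.inr ⟨a, haY, hadf a hty⟩))
    · rintro (⟨hv, h1, h2⟩ | ⟨h1, h2⟩ | ⟨a, ha, rfl⟩ | ⟨a, ha, rfl⟩)
      · refine Or.inl ⟨hv, fun a _ h => ?_⟩
        cases hty : c.ty a
        · exact h1 a (h.trans (hrmf a hty))
        · exact h2 a (h.trans (hrmt a hty))
      · exact absurd h1 h2
      · cases hty : c.ty a
        · refine Or.inl ⟨⟨hsV a, hst' a hty⟩, fun b hb h => ?_⟩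
          rcases hb with ⟨htb, hbY⟩ | ⟨htb, hbY⟩
          · rw [hrmt b htb] at h
            exact hsene a b h
          · rw [hrmf b htb] at h
            rw [hstne a b h] at ha
            exact hbY ha
        · exact Or.inr ⟨a, Or.inl ⟨hty, ha⟩, (hadt a hty).symm⟩
      · cases hty : c.ty a
        · exact Or.inr ⟨a, Or.inr ⟨hty, ha⟩, (hadf a hty).symm⟩
        · refine Or.inl ⟨⟨hsV' a, hen a hty⟩, fun b hb h => ?_⟩
          rcases hb with ⟨htb, hbY⟩ | ⟨htb, hbY⟩
          · rw [hrmt b htb] at h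
            rw [henne a b h] at ha
            exact ha hbY
          · rw [hrmf b htb] at h
            exact hsene b a h.symm
  rw [← hset]
  refine ⟨hC, μ', hμ', ?_⟩
  intro e he
  rw [hBs e he]
  unfold Bs
  refine or_congr ?_ Iff.rfl
  refine exists_congr fun v => ?_
  refine and_congr_right fun hev => ?_
  have := hμe e v hev
  rw [← not_congr this]
  rfl

end Pool.Agent.H20.GW
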