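import Pool.Agent.H55.GW.Targets3

/-!
# ULB: few disjoint connections between two disjoint rooted sets
-/

set_option autoImplicit false

namespace Pool.Agent.H20.GW

open Pool.Agent.H55.GW Pool.Agent.H55.GW.Frame

/-- a vertex reached from two different sources is internal or a sink -/
theorem inn_or_snk {F : Frame} {m : ℕ → Vx} {a₁ a₂ : ℕ} (hne : a₁ ≠ a₂)
    {S S' : Set Vx} {w : Vx}
    (h₁ : RIn (F.D m) S (Sum.inl a₁) w) (h₂ : RIn (F.D m) S' (Sum.inl a₂) w) :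
    w ∈ F.inn ∨ w ∈ F.snk m := by
  have key : ∃ z, F.D m z w := by
    rcases h₁.cases_tail with h | ⟨z, -, h⟩
    · subst h
      rcases h₂.cases_tail with h | ⟨z, -, h⟩
      · exact absurd (Sum.inl.inj h).symm hne
      · exact ⟨z, h⟩
    · exact ⟨z, h⟩
  obtain ⟨z, hz⟩ := key
  have hu := (D_uni hz).2
  rcases w with e | v
  · right
    by_cases he : e ∈ F.base m
    · exact ⟨e, he, rfl⟩
    · exact absurd hz (no_in_src he z)
  · left
    rcases hu with ⟨v', hv', h⟩ | ⟨e, -, h⟩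
    · exact ⟨v', hv', h⟩
    · exact absurd h (by simp)

/-- the inner vertices of a walk from a source are internal -/
theorem rIn_inner {F : Frame} {m : ℕ → Vx} {a : ℕ} {S : Set Vx} {y : Vx}
    (h : RIn (F.D m) S (Sum.inl a) y) :
    RIn (F.D m) (({Sum.inl a, y} : Set Vx) ∪ (S ∩ Set.range Sum.inr)) (Sum.inl a) y := by
  obtain ⟨h1, h2⟩ := h
  induction h2 with
  | refl => exact RIn.refl (Or.inl (Or.inl rfl))
  | @tail b c h3 h4 ih =>
    have hb : RIn (F.D m) S (Sum.inl a) b := ⟨h1, h3⟩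
    rcases b with e | v
    · have he : e ∉ F.base m := fun he => no_out_snk he c h4.1
      rcases hb.cases_tail with h | ⟨z, -, h⟩
      · rw [← h] at h4
        exact RIn.single h4.1 (Or.inl (Or.inl rfl)) (Or.inl (Or.inr rfl))
      · exact absurd h (no_in_src he z)
    · refine (ih.mono_set ?_).tail h4.1 (Or.inl (Or.inr rfl))
      rintro x ((rfl | rfl) | hx)
      · exact Or.inl (Or.inl rfl)
      · exact Or.inr ⟨hb.right_mem, ⟨v, rfl⟩⟩
      · exact Or.inr hx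

theorem ulb (hLO : T_LO) (hUTU : T_UTU) : T_ULB := by
  classical
  intro q hq φ hφ
  obtain ⟨K, hK⟩ := hLO q hq φ hφ 1
  obtain ⟨Γ, hΓ⟩ := hUTU q hq φ hφ
  refine ⟨3 * K + Γ, ?_⟩
  intro M F m hG hR hgood hpm a₁ a₂ hne ha₁ hb₁ ha₂ hb₂ T₁ T₂ hT hT₁ hT₂ n Gr E E' t t' hGr hall
  have hex := (hgood m hpm).1
  -- walks
  have hw₁ : ∀ j, ∀ x ∈ E j, RIn (F.D m) (T₁ ∪ E j) (Sum.inl a₁) x := by
    intro j x hx
    obtain ⟨u, hu, hux⟩ := (hall j).2.2.2.2.2.2.2.1 x hx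
    refine ((hT₁ u hu).mono_set (fun z hz => Or.inl hz)).trans (hux.mono_set ?_)
    rintro z (rfl | hz)
    · exact Or.inl hu
    · exact Or.inr hz
  have hw₂ : ∀ j, ∀ x ∈ E' j, RIn (F.D m) (T₂ ∪ E' j) (Sum.inl a₂) x := by
    intro j x hx
    obtain ⟨u, hu, hux⟩ := (hall j).2.2.2.2.2.2.2.2 x hx
    refine ((hT₂ u hu).mono_set (fun z hz => Or.inl hz)).trans (hux.mono_set ?_)
    rintro z (rfl | hz)
    · exact Or.inl hu
    · exact Or.inr hz
  -- the general bound from LO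
  have hbound : ∀ (J : Finset (Fin n)) (A B : Fin n → Set Vx) (w : Fin n → Vx),
      (∀ j, A j ⊆ Gr j) → (∀ j, B j ⊆ Gr j) → (∀ j ∈ J, w j ∈ Gr j) →
      (∀ j ∈ J, RIn (F.D m) (T₁ ∪ A j) (Sum.inl a₁) (w j)) →
      (∀ j ∈ J, RIn (F.D m) (T₂ ∪ B j) (Sum.inl a₂) (w j)) → J.card ≤ K := by
    intro J A B w hA hB hwG h1 h2
    let e : Fin J.card ≃ J := J.equivFin.symm
    have hcount : ∀ (A : Fin n → Set Vx), (∀ j, A j ⊆ Gr j) → ∀ x : Vx,
        {i : Fin J.card | x ∈ A (e i)}.ncard ≤ 1 := by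
      intro A hA x
      rw [Set.ncard_le_one (Set.toFinite _)]
      intro i hi i' hi'
      by_contra hii
      have hne' : ((e i : J) : Fin n) ≠ ((e i' : J) : Fin n) := by
        intro h
        exact hii (e.injective (Subtype.ext h))
      exact Set.disjoint_left.1 (hGr _ _ hne') (hA _ hi) (hA _ hi')
    refine hK M F m hG hR hpm hex a₁ a₂ hne ha₁ hb₁ ha₂ hb₂ T₁ T₂ hT J.card
      (fun i => w (e i)) ?_ ?_ (fun i => A (e i)) (fun i => B (e i)) ?_ ?_ (hcount A hA)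
      (hcount B hB)
    · intro i i' h
      by_contra hii
      have hne' : ((e i : J) : Fin n) ≠ ((e i' : J) : Fin n) := by
        intro h
        exact hii (e.injective (Subtype.ext h))
      have h' : w (e i) = w (e i') := h
      exact Set.disjoint_left.1 (hGr _ _ hne') (hwG _ (e i).2) (h' ▸ hwG _ (e i').2)
    · intro i
      exact inn_or_snk hne (h1 _ (e i).2) (h2 _ (e i).2)
    · intro i
      exact h1 _ (e i).2
    · intro i
      exact h2 _ (e i).2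
  -- the four types
  let J₁ : Finset (Fin n) := Finset.univ.filter fun j => ∃ w, w ∈ E j ∧ w ∈ E' j
  let J₂ : Finset (Fin n) := Finset.univ.filter fun j => ∃ w, w ∈ E j ∧ w ∈ T₂
  let J₃ : Finset (Fin n) := Finset.univ.filter fun j => ∃ w, w ∈ E' j ∧ w ∈ T₁
  let J₄ : Finset (Fin n) := Finset.univ.filter fun j => (∀ w, w ∈ E j → w ∉ E' j) ∧
    (∀ w, w ∈ E j → w ∉ T₂) ∧ ∀ w, w ∈ E' j → w ∉ T₁
  have hcov : (Finset.univ : Finset (Fin n)) ⊆ (J₁ ∪ J₂) ∪ (J₃ ∪ J₄) := by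
    intro j _
    simp only [J₁, J₂, J₃, J₄, Finset.mem_union, Finset.mem_filter, Finset.mem_univ, true_and]
    by_cases h1 : ∃ w, w ∈ E j ∧ w ∈ E' j
    · exact Or.inl (Or.inl h1)
    by_cases h2 : ∃ w, w ∈ E j ∧ w ∈ T₂
    · exact Or.inl (Or.inr h2)
    by_cases h3 : ∃ w, w ∈ E' j ∧ w ∈ T₁
    · exact Or.inr (Or.inl h3)
    push Not at h1 h2 h3
    exact Or.inr (Or.inr ⟨h1, h2, h3⟩)
  have c1 : J₁.card ≤ K := by
    have : ∀ j, ∃ w, j ∈ J₁ → (w ∈ E j ∧ w ∈ E' j) := by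
      intro j
      by_cases hj : j ∈ J₁
      · obtain ⟨w, hw⟩ := (Finset.mem_filter.1 hj).2
        exact ⟨w, fun _ => hw⟩
      · exact ⟨Sum.inl 0, fun h => absurd h hj⟩
    choose w hw using this
    exact hbound J₁ E E' w (fun j => (hall j).1) (fun j => (hall j).2.1)
      (fun j hj => (hall j).1 (hw j hj).1) (fun j hj => hw₁ j _ (hw j hj).1)
      (fun j hj => hw₂ j _ (hw j hj).2)
  have c2 : J₂.card ≤ K := by
    have : ∀ j, ∃ w, j ∈ J₂ → (w ∈ E j ∧ w ∈ T₂) := by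
      intro j
      by_cases hj : j ∈ J₂
      · obtain ⟨w, hw⟩ := (Finset.mem_filter.1 hj).2
        exact ⟨w, fun _ => hw⟩
      · exact ⟨Sum.inl 0, fun h => absurd h hj⟩
    choose w hw using this
    exact hbound J₂ E (fun _ => ∅) w (fun j => (hall j).1) (fun j => Set.empty_subset _)
      (fun j hj => (hall j).1 (hw j hj).1) (fun j hj => hw₁ j _ (hw j hj).1)
      (fun j hj => (hT₂ _ (hw j hj).2).mono_set (fun z hz => Or.inl hz))
  have c3 : J₃.card ≤ K := by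
    have : ∀ j, ∃ w, j ∈ J₃ → (w ∈ E' j ∧ w ∈ T₁) := by
      intro j
      by_cases hj : j ∈ J₃
      · obtain ⟨w, hw⟩ := (Finset.mem_filter.1 hj).2
        exact ⟨w, fun _ => hw⟩
      · exact ⟨Sum.inl 0, fun h => absurd h hj⟩
    choose w hw using this
    exact hbound J₃ (fun _ => ∅) E' w (fun j => Set.empty_subset _) (fun j => (hall j).2.1)
      (fun j hj => (hall j).2.1 (hw j hj).1)
      (fun j hj => (hT₁ _ (hw j hj).2).mono_set (fun z hz => Or.inl hz))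
      (fun j hj => hw₂ j _ (hw j hj).1)
  have c4 : J₄.card ≤ Γ := by
    have hJ : ∀ j, j ∈ J₄ → (∀ w, w ∈ E j → w ∉ E' j) ∧
      (∀ w, w ∈ E j → w ∉ T₂) ∧ ∀ w, w ∈ E' j → w ∉ T₁ := fun j hj =>
      (Finset.mem_filter.1 hj).2
    have hEE : ∀ j ∈ J₄, ∀ j' ∈ J₄, ∀ x, x ∈ E j → x ∉ E' j' := by
      intro j hj j' hj' x hx hx'
      by_cases hjj : j = j'
      · subst hjj
        exact (hJ j hj).1 x hx hx'
      · exact Set.disjoint_left.1 (hGr j j' hjj) ((hall j).1 hx) ((hall j').2.1 hx')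
    have hrtp : RTP F m a₁ a₂ {v | (Sum.inr v : Vx) ∈ T₁ ∨ ∃ j ∈ J₄, (Sum.inr v : Vx) ∈ E j}
        {v | (Sum.inr v : Vx) ∈ T₂ ∨ ∃ j ∈ J₄, (Sum.inr v : Vx) ∈ E' j}
        {e | ∃ j ∈ J₄, (Sum.inl e : Vx) = t j} {e | ∃ j ∈ J₄, (Sum.inl e : Vx) = t' j} := by
      refine ⟨hne, ⟨ha₁, hb₁⟩, ⟨ha₂, hb₂⟩, ?_, ?_, ?_, ?_, ?_, ?_⟩
      · rintro e ⟨j, hj, he⟩
        obtain ⟨e', he', h⟩ := (hall j).2.2.2.2.1
        rw [← he] at h
        rw [Sum.inl.inj h]
        exact he'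
      · rintro e ⟨j, hj, he⟩
        obtain ⟨e', he', h⟩ := (hall j).2.2.2.2.2.1
        rw [← he] at h
        rw [Sum.inl.inj h]
        exact he'
      · rw [Set.disjoint_left]
        rintro e ⟨j, hj, he⟩ ⟨j', hj', he'⟩
        refine hEE j hj j' hj' (Sum.inl e) ?_ ?_
        · rw [he]
          exact (hall j).2.2.1
        · rw [he']
          exact (hall j').2.2.2.1
      · rw [Set.disjoint_left]
        rintro v (hv | ⟨j, hj, hv⟩) (hv' | ⟨j', hj', hv'⟩)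
        · exact Set.disjoint_left.1 hT hv hv'
        · exact (hJ j' hj').2.2 _ hv' hv
        · exact (hJ j hj).2.1 _ hv hv'
        · exact hEE j hj j' hj' _ hv hv'
      · rintro p ⟨j, hj, hp⟩
        have h1 := rIn_inner (hw₁ j (t j) (hall j).2.2.1)
        rw [← hp] at h1
        refine h1.mono_set ?_
        rintro x (hx | ⟨hx, ⟨v, rfl⟩⟩)
        · exact Or.inl hx
        · refine Or.inr ⟨v, ?_, rfl⟩
          rcases hx with hx | hx
          · exact Or.inl hx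
          · exact Or.inr ⟨j, hj, hx⟩
      · rintro p ⟨j, hj, hp⟩
        have h1 := rIn_inner (hw₂ j (t' j) (hall j).2.2.2.1)
        rw [← hp] at h1
        refine h1.mono_set ?_
        rintro x (hx | ⟨hx, ⟨v, rfl⟩⟩)
        · exact Or.inl hx
        · refine Or.inr ⟨v, ?_, rfl⟩
          rcases hx with hx | hx
          · exact Or.inl hx
          · exact Or.inr ⟨j, hj, hx⟩
    refine hΓ M F m a₁ a₂ _ _ _ _ hG hR hgood hpm hrtp J₄.card ?_
    let e : Fin J₄.card ≃ J₄ := J₄.equivFin.symm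
    refine ⟨fun i => t (e i), fun i => t' (e i), fun i => Gr (e i), ?_, ?_⟩
    · intro i
      refine ⟨?_, ?_, ?_⟩
      · obtain ⟨b, hb, h⟩ := (hall (e i)).2.2.2.2.1
        exact ⟨b, ⟨(e i), (e i).2, h.symm⟩, h.symm⟩
      · obtain ⟨b, hb, h⟩ := (hall (e i)).2.2.2.2.2.1
        exact ⟨b, ⟨(e i), (e i).2, h.symm⟩, h.symm⟩
      · exact (hall (e i)).2.2.2.2.2.2.1
    · intro i i' hii
      exact hGr _ _ fun h => hii (e.injective (Subtype.ext h))
  calc n = (Finset.univ : Finset (Fin n)).card := by simp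
    _ ≤ ((J₁ ∪ J₂) ∪ (J₃ ∪ J₄)).card := Finset.card_le_card hcov
    _ ≤ (J₁ ∪ J₂).card + (J₃ ∪ J₄).card := Finset.card_union_le _ _
    _ ≤ (J₁.card + J₂.card) + (J₃.card + J₄.card) :=
        Nat.add_le_add (Finset.card_union_le _ _) (Finset.card_union_le _ _)
    _ ≤ (K + K) + (K + Γ) := by omega
    _ = 3 * K + Γ := by ring

end Pool.Agent.H20.GW
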